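import Pool.Agent.Helper57.QZ.Stmts3

/-! Row EX3 of the sheet `Pool.Agent.Helper57.QZ.Stmts3` (from XR, GD2, TL3). -/

set_option autoImplicit false

namespace Pool.Agent.Helper57.QZ

open MeasureTheory Set Filter Topology

namespace EX3

lemma asym (c : ℝ) (hc : 0 < c) : ∃ T₄ : ℝ, 4 ≤ T₄ ∧
    ∀ T : ℝ, T₄ ≤ T → T ^ (1 - c) + (T * Real.exp (-(Real.log T / Real.log (Real.log T) ^ 4)) +
      T * Real.exp (-(Real.log T / Real.log (Real.log T) ^ 4))) ≤
      3 * T * Real.exp (-(Real.log T / Real.log (Real.log T) ^ 4)) := by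
  have h1 : ∀ᶠ T : ℝ in atTop, 0 ≤ Real.log T := Real.tendsto_log_atTop.eventually_ge_atTop 0
  have h2 : ∀ᶠ T : ℝ in atTop, max 1 (1 / c) ≤ Real.log (Real.log T) :=
    (Real.tendsto_log_atTop.comp Real.tendsto_log_atTop).eventually_ge_atTop _
  obtain ⟨T0, hT0⟩ := eventually_atTop.1 (h1.and h2)
  refine ⟨max 4 T0, le_max_left _ _, fun T hT => ?_⟩
  obtain ⟨a1, a2⟩ := hT0 T (le_trans (le_max_right _ _) hT)
  have hT4 : 4 ≤ T := le_trans (le_max_left _ _) hT
  have hTpos : 0 < T := by linarith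
  set L := Real.log T with hL
  set M := Real.log L with hM
  have m1 : 1 ≤ M := le_trans (le_max_left _ _) a2
  have m2 : 1 / c ≤ M := le_trans (le_max_right _ _) a2
  have e1 : T ^ (1 - c) = T * Real.exp (-(c * L)) := by
    rw [Real.rpow_sub hTpos, Real.rpow_one, div_eq_mul_inv, Real.rpow_def_of_pos hTpos,
      ← Real.exp_neg, mul_comm c L]
  have m4 : M ≤ M ^ 4 := by
    calc M = M ^ 1 := (pow_one M).symm
      _ ≤ M ^ 4 := pow_le_pow_right₀ m1 (by norm_num)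
  have m5 : 1 ≤ c * M ^ 4 := by
    have : 1 / c ≤ M ^ 4 := m2.trans m4
    rw [div_le_iff₀ hc] at this
    linarith
  have mpos : 0 < M ^ 4 := by positivity
  have c1 : L / M ^ 4 ≤ c * L := by
    rw [div_le_iff₀ mpos]
    nlinarith
  have d1 : Real.exp (-(c * L)) ≤ Real.exp (-(L / M ^ 4)) := Real.exp_le_exp.2 (by linarith)
  rw [e1]
  have := mul_le_mul_of_nonneg_left d1 hTpos.le
  linarith

end EX3

open EX3 in
theorem ex3_of (hXR : ST_XR) (hGD2 : ST_GD2) (hTL : ST_TL3) : ST_EX3 := by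
  intro ε hε η hη
  obtain ⟨c, T1, hc0, hc1, hT1, hXR⟩ := hXR ε hε
  obtain ⟨C, A1, hC, hA1, hGD⟩ := hGD2 ε hε
  obtain ⟨A2, hA2, hTL⟩ := hTL ε hε C (η / 2) hC (by linarith [hη.1])
  obtain ⟨T4, hT4, hasym⟩ := asym c hc0
  refine ⟨max A1 A2, le_trans hA1 (le_max_left _ _), fun A hA => ?_⟩
  obtain ⟨T2, hT2, hGD⟩ := hGD A (le_trans (le_max_left _ _) hA) (η / 2) (by linarith [hη.1])
  obtain ⟨T3, hT3, hTL⟩ := hTL A (le_trans (le_max_right _ _) hA)
  refine ⟨max (max T1 T2) (max T3 T4), le_trans hT1 (le_trans (le_max_left _ _)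
    (le_max_left _ _)), fun T hT σ hσ => ?_⟩
  have b1 : T1 ≤ T := le_trans (le_trans (le_max_left _ _) (le_max_left _ _)) hT
  have b2 : T2 ≤ T := le_trans (le_trans (le_max_right _ _) (le_max_left _ _)) hT
  have b3 : T3 ≤ T := le_trans (le_trans (le_max_left _ _) (le_max_right _ _)) hT
  have b4 : T4 ≤ T := le_trans (le_trans (le_max_right _ _) (le_max_right _ _)) hT
  obtain ⟨E1, hE1s, hE1v, hE1g⟩ := hXR T b1
  obtain ⟨u, v, huv, hG⟩ := hGD T b2 σ hσ
  have hu := hTL T b3 u (fun p hp => (huv p hp).1)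
  have hv := hTL T b3 v (fun p hp => (huv p hp).2)
  refine ⟨E1 ∪ ({t : ℝ | t ∈ Icc T (2 * T) ∧
    η / 2 ≤ ‖∑ p ∈ Pz (zA A T), u p * Complex.exp (-((t * Real.log p : ℝ) * Complex.I))‖} ∪
    {t : ℝ | t ∈ Icc T (2 * T) ∧
    η / 2 ≤ ‖∑ p ∈ Pz (zA A T), v p * Complex.exp (-((t * Real.log p : ℝ) * Complex.I))‖}),
    ?_, ?_, ?_⟩
  · exact union_subset hE1s (union_subset (fun t ht => ht.1) (fun t ht => ht.1))
  · refine (measureReal_union_le _ _).trans ?_
    refine (add_le_add hE1v (measureReal_union_le _ _)).trans ?_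
    exact (add_le_add le_rfl (add_le_add hu hv)).trans (hasym T b4)
  · intro t ht hE
    simp only [mem_union, mem_setOf_eq, not_or, not_and, not_le] at hE
    obtain ⟨n1, n2, n3⟩ := hE
    obtain ⟨g0, g1, g2⟩ := hG t ht (hE1g t ht n1)
    have n2' := n2 ht
    have n3' := n3 ht
    refine ⟨g0, ?_, ?_⟩
    · have r1 := Complex.abs_re_le_norm
        (∑ p ∈ Pz (zA A T), v p * Complex.exp (-((t * Real.log p : ℝ) * Complex.I)))
      rw [abs_le] at g2 r1 ⊢
      constructor <;> linarith [g2.1, g2.2, r1.1, r1.2]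
    · have r2 := norm_add_le
        (deriv riemannZeta (pt σ t) / riemannZeta (pt σ t) - Wy (zA A T) σ (lin (zA A T) t) -
          ∑ p ∈ Pz (zA A T), u p * Complex.exp (-((t * Real.log p : ℝ) * Complex.I)))
        (∑ p ∈ Pz (zA A T), u p * Complex.exp (-((t * Real.log p : ℝ) * Complex.I)))
      rw [sub_add_cancel] at r2
      linarith

end Pool.Agent.Helper57.QZ
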